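import Pool.Agent.helper77.MC.Spec

set_option autoImplicit false

namespace Pool.Agent.helper77.MC

open Finset Numbering

theorem BA_mem {β : Type} [Fintype β] (y : β → ℝ) (c : ℝ) (m : ℕ) (J : Finset β) :
    J ∈ fam y c m ↔ ∑ i ∈ J, y i = c ∧ #J ≤ m := by
  unfold fam
  rw [mem_filter]
  exact ⟨fun h => h.2, fun h => ⟨mem_univ _, h⟩⟩

theorem BA (h1 : SG_stmt) (h2 : ST_stmt) (h3 : FA_stmt) : BA_stmt := by
  intro β _ _ y c₁ c₂ m w g hy hc₁ hc₂ hw hg1 hg2 t ht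
  obtain ⟨a1, a2, a3⟩ := h3 β y c₁ (c₁ + c₂) (m + 1) m hy hc₁
  obtain ⟨b1, b2, b3⟩ := h3 β y c₂ (c₁ + c₂) (m + 1) m hy hc₂
  obtain ⟨d1, d2, _⟩ := h3 β y (c₁ + c₂) (c₁ + c₂) m m hy (by linarith)
  have hA : ∀ J ∈ fam y c₁ (m + 1), ¬ t ⊆ J := fun J hJ => a3 (by linarith) J hJ t ht
  have hB : ∀ J ∈ fam y c₂ (m + 1), ¬ t ⊆ J := fun J hJ => b3 (by linarith) J hJ t ht
  obtain ⟨ht1, ht2⟩ := (BA_mem y (c₁ + c₂) m t).mp ht
  have s1 := h2 β t (fam y c₁ (m + 1)) g hA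
  have s2 := h2 β t (fam y c₂ (m + 1)) g hB
  have s3 : ∑ f ∈ (prefixed t : Finset (Numbering β)),
      ∑ J ∈ fam y (c₁ + c₂) m, (if f ∈ prefixed J then g #J else 0) =
      (#(prefixed t : Finset (Numbering β)) : ℝ) * g #t := by
    rw [← nsmul_eq_mul, ← sum_const]
    refine sum_congr rfl ?_
    intro f hf
    rw [sum_eq_single t]
    · rw [if_pos hf]
    · intro J hJ hJt
      rw [if_neg]
      intro hfJ
      have hd : Disjoint (prefixed J : Finset (Numbering β)) (prefixed t) := by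
        refine disjoint_prefixed_prefixed ?_ ?_
        · intro h
          exact hJt (d2 J hJ t ht h)
        · intro h
          exact hJt (d2 t ht J hJ h).symm
      exact (Finset.disjoint_left.mp hd) hfJ hf
    · intro h
      exact absurd ht h
  rw [sum_add_distrib, sum_add_distrib, s1, s2, s3]
  set N : ℝ := (#(prefixed t : Finset (Numbering β)) : ℝ) with hN
  have hN0 : 0 ≤ N := Nat.cast_nonneg _
  set T₁ : Finset (Finset β) := (fam y c₁ (m + 1)).filter (fun J => J ⊆ t) with hT₁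
  set T₂ : Finset (Finset β) := (fam y c₂ (m + 1)).filter (fun J => J ⊆ t) with hT₂
  have hbij : ∑ J ∈ T₂, g #J * ((#t).choose #J : ℝ)⁻¹ =
      ∑ J ∈ T₁, g (#t - #J) * ((#t).choose #J : ℝ)⁻¹ := by
    refine sum_nbij' (fun J => t \ J) (fun J => t \ J) ?_ ?_ ?_ ?_ ?_
    · intro J hJ
      obtain ⟨hJ1, hJt⟩ := mem_filter.mp hJ
      obtain ⟨e1, e2⟩ := (BA_mem y c₂ (m + 1) J).mp hJ1
      refine mem_filter.mpr ⟨(BA_mem y c₁ (m + 1) (t \ J)).mpr ⟨?_, ?_⟩, sdiff_subset⟩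
      · have e3 := sum_sdiff (f := y) hJt
        linarith
      · have e3 := card_le_card (sdiff_subset : t \ J ⊆ t)
        omega
    · intro J hJ
      obtain ⟨hJ1, hJt⟩ := mem_filter.mp hJ
      obtain ⟨e1, e2⟩ := (BA_mem y c₁ (m + 1) J).mp hJ1
      refine mem_filter.mpr ⟨(BA_mem y c₂ (m + 1) (t \ J)).mpr ⟨?_, ?_⟩, sdiff_subset⟩
      · have e3 := sum_sdiff (f := y) hJt
        linarith
      · have e3 := card_le_card (sdiff_subset : t \ J ⊆ t)
        omega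
    · intro J hJ
      exact Finset.sdiff_sdiff_eq_self (mem_filter.mp hJ).2
    · intro J hJ
      exact Finset.sdiff_sdiff_eq_self (mem_filter.mp hJ).2
    · intro J hJ
      have hJt := (mem_filter.mp hJ).2
      have e1 := card_le_card hJt
      rw [card_sdiff_of_subset hJt, Nat.sub_sub_self e1, Nat.choose_symm e1]
  rw [hbij]
  have hSG : ∑ J ∈ T₁, ((#t).choose #J : ℝ)⁻¹ ≤ 1 := by
    refine h1 β t T₁ (fun s hs => (mem_filter.mp hs).2) ?_
    intro s hs s' hs' hss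
    exact a2 s (mem_filter.mp hs).1 s' (mem_filter.mp hs').1 hss
  have hgt : g #t ≤ w := hg1 _ (by omega)
  have hsum : ∑ J ∈ T₁, g #J * ((#t).choose #J : ℝ)⁻¹ +
      ∑ J ∈ T₁, g (#t - #J) * ((#t).choose #J : ℝ)⁻¹ ≤ 2 * w - g #t := by
    rw [← sum_add_distrib]
    have h4 : ∑ J ∈ T₁, (g #J * ((#t).choose #J : ℝ)⁻¹ + g (#t - #J) * ((#t).choose #J : ℝ)⁻¹) ≤
        ∑ J ∈ T₁, (2 * w - g #t) * ((#t).choose #J : ℝ)⁻¹ := by
      refine sum_le_sum ?_
      intro J hJ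
      obtain ⟨hJ1, hJt⟩ := mem_filter.mp hJ
      obtain ⟨e1, _, _⟩ := a1 J hJ1
      have e2 : #J < #t := card_lt_card ⟨hJt, hA J hJ1⟩
      have e3 := card_pos.mpr e1
      have e4 := hg2 #t ht2 #J e3 e2
      rw [← add_mul]
      refine mul_le_mul_of_nonneg_right (by linarith) ?_
      exact inv_nonneg.mpr (Nat.cast_nonneg _)
    refine h4.trans ?_
    rw [← mul_sum]
    have h5 : 0 ≤ 2 * w - g #t := by linarith
    calc (2 * w - g #t) * ∑ J ∈ T₁, ((#t).choose #J : ℝ)⁻¹ ≤ (2 * w - g #t) * 1 :=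
          mul_le_mul_of_nonneg_left hSG h5
      _ = 2 * w - g #t := mul_one _
  have h6 : N * (∑ J ∈ T₁, g #J * ((#t).choose #J : ℝ)⁻¹ +
      ∑ J ∈ T₁, g (#t - #J) * ((#t).choose #J : ℝ)⁻¹) ≤ N * (2 * w - g #t) :=
    mul_le_mul_of_nonneg_left hsum hN0
  linarith

end Pool.Agent.helper77.MC
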